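import Pool.Agent.Helper91.V13

namespace Pool.Agent.Results.MP_e1f4dd_al.UniformSpread

/-- Cantor space. -/
abbrev Cantor : Type := ℕ → Bool

/-- A group `G` of homeomorphisms of Cantor space is vigorous if for all clopen `A` and nonempty
clopen proper subsets `B`, `C` of `A` some `γ ∈ G` maps `B` into `C` and fixes every point
outside `A`. -/
def IsVigorous (G : Subgroup (Cantor ≃ₜ Cantor)) : Prop :=
  ∀ A B C : Set Cantor, IsClopen A → IsClopen B → IsClopen C → B.Nonempty → C.Nonempty →
    B ⊂ A → C ⊂ A → ∃ γ ∈ G, γ '' B ⊆ C ∧ ∀ x ∉ A, γ x = x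

/-- Some `σ ∈ G` is such that for all nontrivial `α₁, …, α_k ∈ G` there is a single conjugate `β`
of `σ` with `⟨α_i, β⟩ = G` for every `i`. -/
def HasUniformSpread (G : Type) [Group G] (k : ℕ) : Prop :=
  ∃ σ : G, ∀ α : Fin k → G, (∀ i, α i ≠ 1) →
    ∃ β : G, IsConj σ β ∧ ∀ i, Subgroup.closure {α i, β} = ⊤

/-- The uniform spread: the supremum in `ℕ∞` of the `k` with the above property. -/
noncomputable def uniformSpread (G : Type) [Group G] : ℕ∞ :=
  ⨆ k : ℕ, ⨆ _ : HasUniformSpread G k, (k : ℕ∞)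

/-- Every finitely generated simple vigorous group of homeomorphisms of Cantor space has infinite
uniform spread. -/
theorem result (G : Subgroup (Cantor ≃ₜ Cantor)) (hv : IsVigorous G) (hs : IsSimpleGroup G)
    (hfg : Group.FG G) : uniformSpread G = ⊤ := by
  rw [uniformSpread, ENat.eq_top_iff_forall_ge]
  intro k
  exact le_iSup₂_of_le k (Pool.Agent.Helper91.uniform_homeo G hv hs hfg k) le_rfl

end Pool.Agent.Results.MP_e1f4dd_al.UniformSpread
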